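import Pool.Agent.R660.BS.Fin
import Pool.Agent.R660.BS.GEO
import Pool.Agent.R660.BS.LIM
import Pool.Agent.R660.BS.GOODK
import Pool.Agent.R660.BS.CHOOSE
import Pool.Agent.R660.BS.UP
import Pool.Agent.R660.BS.BLK
import Pool.Agent.R660.BS.LOW
import Pool.Agent.R660.BS.ANA
import Pool.Agent.R660.BS.NP

open Pool.Agent.R660.BS

/-- For `d = 2` and two alphabets of 16 symbols there is a digit set `E` for which the Hausdorff
dimension of the sponge is neither real-analytic nor piecewise real-analytic, both on the Baranski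
and on the strongly Baranski parameter set. -/
theorem Pool.Agent.Results.MP_0b6f3a_an.NotPiecewiseAnalytic.result :
    ∃ E : Set ((i : Fin 2) → (fun _ : Fin 2 => Fin 16) i), E.Nonempty ∧
      ¬ RealAnalyticOn (HD E) (Baranski 2 (fun _ => Fin 16)) ∧
      ¬ PiecewiseAnalyticOn (HD E) (Baranski 2 (fun _ => Fin 16)) ∧
      ¬ RealAnalyticOn (HD E) (StronglyBaranski 2 (fun _ => Fin 16)) ∧
      ¬ PiecewiseAnalyticOn (HD E) (StronglyBaranski 2 (fun _ => Fin 16)) := by
  refine ⟨EE, ⟨fun _ => 0, by simp [EE, row]⟩, ?_⟩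
  exact Fin.main Pool.Agent.R660.BS.LIM.main
    (UP.main GEO.main GOODK.main CHOOSE.main)
    (LOW.main (BLK.main GEO.main) CHOOSE.main) ANA.main NP.main
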